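import Pool.Agent.Helper70.DO.XLib

/-!
# X5: surjectivity of `H(Q_k((b,e')-m)) → H(Q_k((b,e)-m))`
-/

namespace Pool.Agent.Helper67.DO

open scoped BigOperators Real

noncomputable section

theorem x5_ineq {N : ℕ} {b m e : ℤ} {w : ℝ} (hN : 0 < N) (hb : b < m) (hm : m < e) (he : e ≤ b + N)
    (hw1 : w < 1 / (4 * N)) :
    (m : ℝ) / N + w < yy N m ∧ yy N m < (e : ℝ) / N - w ∧ (e : ℝ) / N ≤ (m : ℝ) / N + 1 := by
  have hN' : (0 : ℝ) < N := Nat.cast_pos.2 hN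
  have e1 : yy N m = (m : ℝ) / N + 2 * (1 / (4 * N)) := by
    unfold yy
    field_simp
    ring
  have e2 : ((m : ℝ) + 1) / N = (m : ℝ) / N + 4 * (1 / (4 * N)) := by
    field_simp
  have e3 : ((m : ℝ) + 1) / N ≤ (e : ℝ) / N := by
    apply div_le_div_of_nonneg_right _ hN'.le
    exact_mod_cast Int.add_one_le_of_lt hm
  have e4 : (0 : ℝ) < 1 / (4 * N) := by positivity
  refine ⟨by linarith, by linarith, ?_⟩
  have e5 : (e : ℝ) ≤ m + N := by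
    have : e ≤ m + N := by linarith
    exact_mod_cast this
  calc (e : ℝ) / N ≤ (m + N) / N := div_le_div_of_nonneg_right e5 hN'.le
    _ = (m : ℝ) / N + 1 := by field_simp

theorem x5_ineq2 {N : ℕ} {b m e : ℤ} (hN : 0 < N) (hb : b < m) (hm : m < e) (he : e ≤ b + N) :
    (m : ℝ) / N < yy N m ∧ yy N m < (e : ℝ) / N ∧ (e : ℝ) / N ≤ (m : ℝ) / N + 1 := by
  have hN' : (0 : ℝ) < N := Nat.cast_pos.2 hN
  have h := x5_ineq (w := 0) hN hb hm he (by positivity)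
  exact ⟨by linarith [h.1], by linarith [h.2.1], h.2.2⟩

theorem x5_mono_e {N : ℕ} {e' e : ℤ} (hN : 0 < N) (he : e' ≤ e) : (e' : ℝ) / N ≤ (e : ℝ) / N :=
  div_le_div_of_nonneg_right (by exact_mod_cast he) (Nat.cast_pos.2 hN).le

theorem x5_geo (h3 : ST_X3) {N : ℕ} {b m e : ℤ} (hN : 0 < N) (hb : b < m) (hm : m < e) (he : e ≤ b + N) {I : Set ℤ}
    (hI : ∀ i ∈ I, b < i ∧ i < m) {w h : ℝ} (hw : 0 < w) (hw1 : w < 1 / (4 * N)) (hh : 0 < h) :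
    US N (PI N b e ({m} ∪ I)) (GI N b e) w h = US N (PI N b m I) (GI N b m) w h ∪ RR (m / N) (e / N) w h ∧
    (∀ z ∈ US N (PI N b m I) (GI N b m) w h, ¬ InR (m / N) (e / N) z) ∧
    IsOpen (US N (PI N b m I) (GI N b m) w h) ∧ Per (US N (PI N b m I) (GI N b m) w h) := by
  have H := h3 N b m e I w h hN hb hm he hI hw hw1 hh
  exact ⟨H.1, H.2.1, H.2.2.2.1, H.2.2.2.2⟩

theorem x5_geo0 (h3 : ST_X3) {N : ℕ} {b m e : ℤ} (hN : 0 < N) (hb : b < m) (hm : m < e) (he : e ≤ b + N)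
    {w h : ℝ} (hw : 0 < w) (hw1 : w < 1 / (4 * N)) (hh : 0 < h) :
    US N (PI N b e {m}) (GI N b e) w h = US N (PI N b m ∅) (GI N b m) w h ∪ RR (m / N) (e / N) w h ∧
    (∀ z ∈ US N (PI N b m ∅) (GI N b m) w h, ¬ InR (m / N) (e / N) z) ∧
    IsOpen (US N (PI N b m ∅) (GI N b m) w h) ∧ Per (US N (PI N b m ∅) (GI N b m) w h) := by
  have H := x5_geo h3 (I := ∅) hN hb hm he (fun i hi => absurd hi (Set.notMem_empty i)) hw hw1 hh
  rw [Set.union_empty] at H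
  exact H

theorem x5_geo1 (h3 : ST_X3) {N i : ℕ} {b m e : ℤ} (hN : 0 < N) (hb : b < 0) (hi : (i : ℤ) < m) (hm : m < e)
    (he : e ≤ b + N) {w h : ℝ} (hw : 0 < w) (hw1 : w < 1 / (4 * N)) (hh : 0 < h) :
    US N (PI N b e {m} ∪ pcl N {(i : ℤ)}) (GI N b e) w h
      = US N (PI N b m {(i : ℤ)}) (GI N b m) w h ∪ RR (m / N) (e / N) w h ∧
    (∀ z ∈ US N (PI N b m {(i : ℤ)}) (GI N b m) w h, ¬ InR (m / N) (e / N) z) ∧
    IsOpen (US N (PI N b m {(i : ℤ)}) (GI N b m) w h) ∧ Per (US N (PI N b m {(i : ℤ)}) (GI N b m) w h) := by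
  rw [PI_union]
  have hi0 : (0 : ℤ) ≤ i := Int.natCast_nonneg i
  refine x5_geo h3 hN (by linarith) hm he (fun j hj => ?_) hw hw1 hh
  rw [Set.mem_singleton_iff] at hj
  subst hj
  exact ⟨by linarith, hi⟩

/-- `Π` on the domains of the problem -/
theorem x5_Pi_BO (h2 : ST_X2) (h3 : ST_X3) {N : ℕ} {b m e' e : ℤ} (hN : 0 < N) (hb : b < m) (hm : m < e')
    (he' : e' ≤ e) (he : e ≤ b + N) {w h : ℝ} (hw : 0 < w) (hw1 : w < 1 / (4 * N)) (hh : 0 < h) {q : ℕ}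
    {F : (Fin q → ℂ) → ℂ} (hF : BO q (US N (PI N b e' {m}) (GI N b e') w h) F) :
    BO q (US N (PI N b e {m}) (GI N b e) w h) (PiE (m / N) (e / N) (yy N m) q F) ∧
    ∀ z ∈ PU q (US N (PI N b e' {m}) (GI N b e') w h),
      PiE (m / N) (e / N) (yy N m) q F z = PiE (m / N) (e' / N) (yy N m) q F z := by
  obtain ⟨g1, g2, g3, g4⟩ := x5_geo0 h3 hN hb (hm.trans_le he') he hw hw1 hh
  obtain ⟨g1', _⟩ := x5_geo0 h3 hN hb hm (he'.trans he) hw hw1 hh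
  rw [g1'] at hF ⊢
  rw [g1]
  have i1 := x5_ineq hN hb hm (he'.trans he) hw1
  have i2 := x5_ineq hN hb (hm.trans_le he') he hw1
  exact (h2 (m / N) (yy N m) (e' / N) (e / N) w h i1.1 i1.2.1 (x5_mono_e hN he') i2.2.2 hw.le hh _ g3 g4 g2).1 q F hF

theorem x5_Pi_dd (h2 : ST_X2) (h3 : ST_X3) {N : ℕ} {b m e' e : ℤ} (hN : 0 < N) (hb : b < m) (hm : m < e')
    (he' : e' ≤ e) (he : e ≤ b + N) {w h : ℝ} (hw : 0 < w) (hw1 : w < 1 / (4 * N)) (hh : 0 < h) {q : ℕ}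
    {F : (Fin (q + 1) → ℂ) → ℂ} (hF : BO (q + 1) (US N (PI N b e' {m}) (GI N b e') w h) F) :
    ∀ z ∈ PU q (US N (PI N b e {m}) (GI N b e) w h),
      dd q (PiE (m / N) (e / N) (yy N m) (q + 1) F) z = PiE (m / N) (e / N) (yy N m) q (dd q F) z := by
  obtain ⟨g1, g2, g3, g4⟩ := x5_geo0 h3 hN hb (hm.trans_le he') he hw hw1 hh
  obtain ⟨g1', _⟩ := x5_geo0 h3 hN hb hm (he'.trans he) hw hw1 hh
  rw [g1'] at hF
  rw [g1]
  have i1 := x5_ineq hN hb hm (he'.trans he) hw1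
  have i2 := x5_ineq hN hb (hm.trans_le he') he hw1
  exact (h2 (m / N) (yy N m) (e' / N) (e / N) w h i1.1 i1.2.1 (x5_mono_e hN he') i2.2.2 hw.le hh _ g3 g4
    g2).2.2.1 q F hF

theorem x5_Pi_Fnl (h2 : ST_X2) (h3 : ST_X3) {N : ℕ} {b m e' e : ℤ} (hN : 0 < N) (hb : b < m) (hm : m < e')
    (he' : e' ≤ e) (he : e ≤ b + N) {w h : ℝ} (hw : 0 < w) (hw1 : w < 1 / (4 * N)) (hh : 0 < h) {q : ℕ}
    {φ : ((Fin q → ℂ) → ℂ) → ℂ} (hφ : Fnl q (US N (PI N b e {m}) (GI N b e) w h) φ) :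
    Fnl q (US N (PI N b e' {m}) (GI N b e') w h) (fun F => φ (PiE (m / N) (e / N) (yy N m) q F)) := by
  obtain ⟨g1, g2, g3, g4⟩ := x5_geo0 h3 hN hb (hm.trans_le he') he hw hw1 hh
  obtain ⟨g1', _⟩ := x5_geo0 h3 hN hb hm (he'.trans he) hw hw1 hh
  rw [g1] at hφ
  rw [g1']
  have i1 := x5_ineq hN hb hm (he'.trans he) hw1
  have i2 := x5_ineq hN hb (hm.trans_le he') he hw1
  exact x5_pull h2 i1.1 i1.2.1 (x5_mono_e hN he') i2.2.2 hw.le hh g3 g4 g2 hφ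

theorem x5_SumX_pull (h2 : ST_X2) (h3 : ST_X3) {N k : ℕ} {b m e' e : ℤ} (hN : 0 < N) (hb : b < 0)
    (hk : (k : ℤ) ≤ m) (hm : m < e')
    (he' : e' ≤ e) (he : e ≤ b + N) {w h : ℝ} (hw : 0 < w) (hw1 : w < 1 / (4 * N)) (hh : 0 < h) {q : ℕ}
    {ξ : ((Fin q → ℂ) → ℂ) → ℂ} (hξ : SumX N k q (PI N b e {m}) (GI N b e) w h ξ) :
    SumX N k q (PI N b e' {m}) (GI N b e') w h (fun F => ξ (PiE (m / N) (e / N) (yy N m) q F)) := by
  have hk0 : (0 : ℤ) ≤ k := Int.natCast_nonneg k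
  have hbm : b < m := by linarith
  obtain ⟨β, k1, k2⟩ := hξ
  refine ⟨fun i F => β i (PiE (m / N) (e / N) (yy N m) q F), fun i hi => ?_, fun w1 h1 a1 a2 a3 F hF => ?_⟩
  · have him : (i : ℤ) < m := lt_of_lt_of_le (by exact_mod_cast hi) hk
    have hφ := k1 i hi
    obtain ⟨g1, g2, g3, g4⟩ := x5_geo1 h3 hN hb him (hm.trans_le he') he hw hw1 hh
    obtain ⟨g1', _⟩ := x5_geo1 h3 hN hb him hm (he'.trans he) hw hw1 hh
    rw [g1] at hφ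
    rw [g1']
    have i1 := x5_ineq hN hbm hm (he'.trans he) hw1
    have i2 := x5_ineq hN hbm (hm.trans_le he') he hw1
    exact x5_pull h2 i1.1 i1.2.1 (x5_mono_e hN he') i2.2.2 hw.le hh g3 g4 g2 hφ
  · exact k2 w1 h1 a1 a2 a3 _ (x5_Pi_BO h2 h3 hN hbm hm he' he a1 (a2.trans hw1) (hh.trans a3) hF).1

theorem x5_hop_BO (h3 : ST_X3) {N : ℕ} {b m e : ℤ} (hN : 0 < N) (hb : b < m) (hm : m < e) (he : e ≤ b + N)
    {hop : (q : ℕ) → ((Fin q → ℂ) → ℂ) → ((Fin (q + 1) → ℂ) → ℂ)} (hp : x5_Hop (m / N) (yy N m) (e / N) hop)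
    {w h : ℝ} (hw : 0 < w) (hw1 : w < 1 / (4 * N)) (hh : 0 < h) {q : ℕ}
    {F : (Fin q → ℂ) → ℂ} (hF : BO q (US N (PI N b e {m}) (GI N b e) w h) F) :
    BO (q + 1) (US N (PI N b e {m}) (GI N b e) w h) (hop q F) := by
  obtain ⟨g1, g2, g3, g4⟩ := x5_geo0 h3 hN hb hm he hw hw1 hh
  rw [g1] at hF ⊢
  have i2 := x5_ineq hN hb hm he hw1
  exact (hp w h hw.le hh i2.1 i2.2.1 _ g3 g4 g2).1 q F hF

theorem x5_hop_dd (h3 : ST_X3) {N : ℕ} {b m e : ℤ} (hN : 0 < N) (hb : b < m) (hm : m < e) (he : e ≤ b + N)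
    {hop : (q : ℕ) → ((Fin q → ℂ) → ℂ) → ((Fin (q + 1) → ℂ) → ℂ)} (hp : x5_Hop (m / N) (yy N m) (e / N) hop)
    {w h : ℝ} (hw : 0 < w) (hw1 : w < 1 / (4 * N)) (hh : 0 < h) {q : ℕ}
    {F : (Fin (q + 1) → ℂ) → ℂ} (hF : BO (q + 1) (US N (PI N b e {m}) (GI N b e) w h) F) :
    ∀ z ∈ PU (q + 1) (US N (PI N b e {m}) (GI N b e) w h),
      dd (q + 1) (hop (q + 1) F) z + hop q (dd q F) z = F z - PiE (m / N) (e / N) (yy N m) (q + 1) F z := by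
  obtain ⟨g1, g2, g3, g4⟩ := x5_geo0 h3 hN hb hm he hw hw1 hh
  rw [g1] at hF ⊢
  have i2 := x5_ineq hN hb hm he hw1
  exact (hp w h hw.le hh i2.1 i2.2.1 _ g3 g4 g2).2.2.2 q F hF

theorem x5_hop_Fnl (h3 : ST_X3) {N : ℕ} {b m e : ℤ} (hN : 0 < N) (hb : b < m) (hm : m < e) (he : e ≤ b + N)
    {hop : (q : ℕ) → ((Fin q → ℂ) → ℂ) → ((Fin (q + 1) → ℂ) → ℂ)} (hp : x5_Hop (m / N) (yy N m) (e / N) hop)
    {w h : ℝ} (hw : 0 < w) (hw1 : w < 1 / (4 * N)) (hh : 0 < h) {q : ℕ}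
    {φ : ((Fin (q + 1) → ℂ) → ℂ) → ℂ} (hφ : Fnl (q + 1) (US N (PI N b e {m}) (GI N b e) w h) φ) :
    Fnl q (US N (PI N b e {m}) (GI N b e) w h) (fun F => φ (hop q F)) := by
  obtain ⟨g1, g2, g3, g4⟩ := x5_geo0 h3 hN hb hm he hw hw1 hh
  rw [g1] at hφ ⊢
  have i2 := x5_ineq hN hb hm he hw1
  exact x5_hopF hp i2.1 i2.2.1 hw.le hh g3 g4 g2 hφ

theorem x5_SumX_hop (h3 : ST_X3) {N k : ℕ} {b m e : ℤ} (hN : 0 < N) (hb : b < 0) (hk : (k : ℤ) ≤ m) (hm : m < e)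
    (he : e ≤ b + N) {hop : (q : ℕ) → ((Fin q → ℂ) → ℂ) → ((Fin (q + 1) → ℂ) → ℂ)}
    (hp : x5_Hop (m / N) (yy N m) (e / N) hop)
    {w h : ℝ} (hw : 0 < w) (hw1 : w < 1 / (4 * N)) (hh : 0 < h) {q : ℕ}
    {ξ : ((Fin (q + 1) → ℂ) → ℂ) → ℂ} (hξ : SumX N k (q + 1) (PI N b e {m}) (GI N b e) w h ξ) :
    SumX N k q (PI N b e {m}) (GI N b e) w h (fun F => ξ (hop q F)) := by
  have hk0 : (0 : ℤ) ≤ k := Int.natCast_nonneg k
  have hbm : b < m := by linarith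
  obtain ⟨β, k1, k2⟩ := hξ
  refine ⟨fun i F => β i (hop q F), fun i hi => ?_, fun w1 h1 a1 a2 a3 F hF => ?_⟩
  · have him : (i : ℤ) < m := lt_of_lt_of_le (by exact_mod_cast hi) hk
    have hφ := k1 i hi
    obtain ⟨g1, g2, g3, g4⟩ := x5_geo1 h3 hN hb him hm he hw hw1 hh
    rw [g1] at hφ ⊢
    have i2 := x5_ineq hN hbm hm he hw1
    exact x5_hopF hp i2.1 i2.2.1 hw.le hh g3 g4 g2 hφ
  · exact k2 w1 h1 a1 a2 a3 _ (x5_hop_BO h3 hN hbm hm he hp a1 (a2.trans hw1) (hh.trans a3) hF)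

theorem x5_get_hop (h1 : ST_X1) {N : ℕ} {b m e : ℤ} (hN : 0 < N) (hb : b < m) (hm : m < e) (he : e ≤ b + N) :
    ∃ hop, x5_Hop (m / N) (yy N m) (e / N) hop := by
  have i := x5_ineq2 hN hb hm he
  exact h1 (m / N) (yy N m) (e / N) i.1 i.2.1 i.2.2

/-- `β - β ∘ Π - (β ∘ h) ∘ ∂ = (β ∘ ∂) ∘ h` -/
theorem x5_homotopy (h1 : ST_E1) (h2 : ST_X2) (h3 : ST_X3) {N : ℕ} {b m e : ℤ} (hN : 0 < N) (hb : b < m)
    (hm : m < e) (he : e ≤ b + N)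
    {hop : (q : ℕ) → ((Fin q → ℂ) → ℂ) → ((Fin (q + 1) → ℂ) → ℂ)} (hp : x5_Hop (m / N) (yy N m) (e / N) hop)
    {w h : ℝ} (hw1 : w < 1 / (4 * N)) (hh : 0 < h) {q : ℕ}
    {β : ((Fin (q + 1) → ℂ) → ℂ) → ℂ} (hβ : Fnl (q + 1) (US N (PI N b e {m}) (GI N b e) w h) β)
    {w1 k1 : ℝ} (a1 : 0 < w1) (a2 : w1 < w) (a3 : h < k1)
    {F : (Fin (q + 1) → ℂ) → ℂ} (hF : BO (q + 1) (US N (PI N b e {m}) (GI N b e) w1 k1) F) :
    β F - β (PiE (m / N) (e / N) (yy N m) (q + 1) F) - β (hop q (dd q F)) = β (dd (q + 1) (hop (q + 1) F)) := by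
  have hs := Shape_PI N b e {m}
  have hw : 0 < w := a1.trans a2
  have hk1 : 0 < k1 := hh.trans a3
  have hw11 : w1 < 1 / (4 * N) := a2.trans hw1
  have hmono : US N (PI N b e {m}) (GI N b e) w h ⊆ US N (PI N b e {m}) (GI N b e) w1 k1 :=
    US_mono le_rfl le_rfl a2.le a3.le
  have hF' : BO (q + 1) (US N (PI N b e {m}) (GI N b e) w h) F := hF.mono hmono
  have b1 : BO (q + 1) (US N (PI N b e {m}) (GI N b e) w h) (PiE (m / N) (e / N) (yy N m) (q + 1) F) :=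
    (x5_Pi_BO h2 h3 hN hb hm le_rfl he hw hw1 hh hF').1
  have b2 : BO q (US N (PI N b e {m}) (GI N b e) w h) (dd q F) := dd_BO h1 hN hs a1.le a2 a3 hF
  have b3 : BO (q + 1) (US N (PI N b e {m}) (GI N b e) w h) (hop q (dd q F)) := x5_hop_BO h3 hN hb hm he hp hw hw1 hh b2
  have b4 : BO (q + 1 + 1) (US N (PI N b e {m}) (GI N b e) w1 k1) (hop (q + 1) F) :=
    x5_hop_BO h3 hN hb hm he hp a1 hw11 hk1 hF
  have b5 : BO (q + 1) (US N (PI N b e {m}) (GI N b e) w h) (dd (q + 1) (hop (q + 1) F)) :=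
    dd_BO h1 hN hs a1.le a2 a3 b4
  have e1 := x5_hop_dd h3 hN hb hm he hp hw hw1 hh hF'
  have e2 : β F = β (fun z => dd (q + 1) (hop (q + 1) F) z + (hop q (dd q F) z + PiE (m / N) (e / N) (yy N m) (q + 1) F z)) := by
    refine hβ.ext' hF' (b5.add (b3.add b1)) fun z hz => ?_
    have := e1 z hz
    linear_combination -this
  rw [e2, hβ.add _ _ b5 (b3.add b1), hβ.add _ _ b3 b1]
  ring

theorem st_X5 (h1 : ST_E1) (hX1 : ST_X1) (h2 : ST_X2) (h3 : ST_X3) : ST_X5 := by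
  intro N k n b m e' e hN hb hk hm he' he
  refine Loss.of fun w' h' w h q1 q2 q3 q4 q5 => ?_
  intro α hα hc
  have hk0 : (0 : ℤ) ≤ k := Int.natCast_nonneg k
  have hbm : b < m := by linarith
  have hme : m < e := hm.trans_le he'
  have hw : 0 < w := q1.trans q2
  have hs := Shape_PI N b e {m}
  have hs' := Shape_PI N b e' {m}
  have mon : US N (PI N b e {m}) (GI N b e) w h ⊆ US N (PI N b e {m}) (GI N b e) w' h' :=
    US_mono le_rfl le_rfl q2.le q5.le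
  have mon' : US N (PI N b e' {m}) (GI N b e') w h ⊆ US N (PI N b e' {m}) (GI N b e') w' h' :=
    US_mono le_rfl le_rfl q2.le q5.le
  refine ⟨fun F => α (PiE (m / N) (e / N) (yy N m) n F),
    (x5_Pi_Fnl h2 h3 hN hbm hm he' he hw q3 q4 hα).mono' mon', ?_, ?_⟩
  · have c1 := x5_SumX_pull h2 h3 hN hb hk hm he' he hw q3 q4 hc
    refine SumX.mono (SumX.congr c1 fun w1 k1 a1 a2 a3 F hF => ?_) le_rfl le_rfl le_rfl q2.le q5.le
    show α (PiE (m / N) (e / N) (yy N m) n (dd n F)) = α (dd n (PiE (m / N) (e / N) (yy N m) (n + 1) F))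
    have b1 : BO n (US N (PI N b e' {m}) (GI N b e') w h) (dd n F) := dd_BO h1 hN hs' a1.le a2 a3 hF
    have b2 := (x5_Pi_BO h2 h3 hN hbm hm he' he hw q3 q4 b1).1
    have b3 := (x5_Pi_BO h2 h3 hN hbm hm he' he a1 (a2.trans q3) (q4.trans a3) hF).1
    have b4 : BO n (US N (PI N b e {m}) (GI N b e) w h) (dd n (PiE (m / N) (e / N) (yy N m) (n + 1) F)) :=
      dd_BO h1 hN hs a1.le a2 a3 b3
    have hF' : BO (n + 1) (US N (PI N b e' {m}) (GI N b e') w h) F := hF.mono (US_mono le_rfl le_rfl a2.le a3.le)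
    exact hα.ext' b2 b4 fun z hz => (x5_Pi_dd h2 h3 hN hbm hm he' he hw q3 q4 hF' z hz).symm
  · cases n with
    | zero =>
      refine SumX.congr (SumX.zero N k 0 _ _ _ _) fun w1 k1 _ _ _ F _ => ?_
      show α F - α (PiE (m / N) (e / N) (yy N m) 0 F) = 0
      rw [x5_PiE_zero, sub_self]
    | succ n =>
      obtain ⟨hop, hp⟩ := x5_get_hop hX1 hN hbm hme he
      refine ⟨fun F => α (hop n F), (x5_hop_Fnl h3 hN hbm hme he hp hw q3 q4 hα).mono' mon, ?_⟩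
      have c1 := x5_SumX_hop h3 hN hb hk hme he hp hw q3 q4 hc
      refine SumX.mono (SumX.congr c1 fun w1 k1 a1 a2 a3 F hF => ?_) le_rfl le_rfl le_rfl q2.le q5.le
      exact x5_homotopy h1 h2 h3 hN hbm hme he hp q3 q4 hα a1 a2 a3 hF

end

end Pool.Agent.Helper67.DO
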