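import Pool.Agent.Helper70.DO.X5

/-!
# X6: injectivity of `H(Q_k((b,e')-m)) → H(Q_k((b,e)-m))`
-/

namespace Pool.Agent.Helper67.DO

open scoped BigOperators Real

noncomputable section

theorem st_X6 (h1 : ST_E1) (hX1 : ST_X1) (h2 : ST_X2) (h3 : ST_X3) : ST_X6 := by
  intro N k n b m e' e hN hb hk hm he' he
  refine Loss.of fun w' h' w h q1 q2 q3 q4 q5 => ?_
  intro β hβ hc hx
  have hk0 : (0 : ℤ) ≤ k := Int.natCast_nonneg k
  have hbm : b < m := by linarith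
  have hme : m < e := hm.trans_le he'
  have he1 : e' ≤ b + N := he'.trans he
  have hw : 0 < w := q1.trans q2
  have hs := Shape_PI N b e {m}
  have hs' := Shape_PI N b e' {m}
  have mon' : US N (PI N b e' {m}) (GI N b e') w h ⊆ US N (PI N b e' {m}) (GI N b e') w' h' :=
    US_mono le_rfl le_rfl q2.le q5.le
  cases n with
  | zero =>
    have c1 := x5_SumX_pull h2 h3 hN hb hk hm he' he hw q3 q4 hx
    refine SumX.mono (SumX.congr c1 fun w1 k1 a1 a2 a3 F hF => ?_) le_rfl le_rfl le_rfl q2.le q5.le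
    show β F = β (PiE (m / N) (e / N) (yy N m) 0 F)
    rw [x5_PiE_zero]
  | succ n =>
    obtain ⟨γ, hγ, hx⟩ := hx
    obtain ⟨hop, hp⟩ := x5_get_hop hX1 hN hbm hm he1
    refine ⟨fun F => β (hop n F) + γ (PiE (m / N) (e / N) (yy N m) n F),
      ((x5_hop_Fnl h3 hN hbm hm he1 hp hw q3 q4 hβ).addF
        (x5_Pi_Fnl h2 h3 hN hbm hm he' he hw q3 q4 hγ)).mono' mon', ?_⟩
    have c1 := x5_SumX_hop h3 hN hb hk hm he1 hp hw q3 q4 hc
    have c2 := x5_SumX_pull h2 h3 hN hb hk hm he' he hw q3 q4 hx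
    refine SumX.mono (SumX.congr (c1.add c2) fun w1 k1 a1 a2 a3 F hF => ?_) le_rfl le_rfl le_rfl q2.le q5.le
    show β F - (β (hop n (dd n F)) + γ (PiE (m / N) (e / N) (yy N m) n (dd n F)))
      = β (dd (n + 1) (hop (n + 1) F)) + (β (PiE (m / N) (e / N) (yy N m) (n + 1) F)
        - γ (dd n (PiE (m / N) (e / N) (yy N m) (n + 1) F)))
    have e1 := x5_homotopy h1 h2 h3 hN hbm hm he1 hp q3 q4 hβ a1 a2 a3 hF
    have hF' : BO (n + 1) (US N (PI N b e' {m}) (GI N b e') w h) F := hF.mono (US_mono le_rfl le_rfl a2.le a3.le)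
    have b0 := x5_Pi_BO h2 h3 hN hbm hm he' he hw q3 q4 hF'
    have b0' := x5_Pi_BO h2 h3 hN hbm hm le_rfl he1 hw q3 q4 hF'
    have emon : US N (PI N b e' {m}) (GI N b e') w h ⊆ US N (PI N b e {m}) (GI N b e) w h := by
      obtain ⟨g1, _⟩ := x5_geo0 h3 hN hbm hme he hw q3 q4
      obtain ⟨g1', _⟩ := x5_geo0 h3 hN hbm hm he1 hw q3 q4
      rw [g1, g1']
      exact Set.union_subset_union_right _ (x5_RR_mono (x5_mono_e hN he'))
    have e2 : β (PiE (m / N) (e / N) (yy N m) (n + 1) F) = β (PiE (m / N) (e' / N) (yy N m) (n + 1) F) :=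
      hβ.ext' (b0.1.mono emon) b0'.1 b0.2
    have e3 : γ (PiE (m / N) (e / N) (yy N m) n (dd n F)) = γ (dd n (PiE (m / N) (e / N) (yy N m) (n + 1) F)) := by
      have b1 : BO n (US N (PI N b e' {m}) (GI N b e') w h) (dd n F) := dd_BO h1 hN hs' a1.le a2 a3 hF
      have b2 := (x5_Pi_BO h2 h3 hN hbm hm he' he hw q3 q4 b1).1
      have b3 := (x5_Pi_BO h2 h3 hN hbm hm he' he a1 (a2.trans q3) (q4.trans a3) hF).1
      have b4 : BO n (US N (PI N b e {m}) (GI N b e) w h) (dd n (PiE (m / N) (e / N) (yy N m) (n + 1) F)) :=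
        dd_BO h1 hN hs a1.le a2 a3 b3
      exact hγ.ext' b2 b4 fun z hz => (x5_Pi_dd h2 h3 hN hbm hm he' he hw q3 q4 hF' z hz).symm
    rw [e3, e2]
    linear_combination e1

end

end Pool.Agent.Helper67.DO
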