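import Pool.Agent.Helper67.DO.BaseE
import Pool.Agent.Helper26.DO.Lib

/-!
# The projection `Π` and the homotopy operator as operations on functionals
-/

namespace Pool.Agent.Helper67.DO

open scoped BigOperators Real

noncomputable section

theorem x5_RR_InR {b0 e0 w h : ℝ} (hw : 0 ≤ w) {z : ℂ} (hz : z ∈ RR b0 e0 w h) : InR b0 e0 z := by
  obtain ⟨_, k, h1, h2⟩ := hz
  exact ⟨k, by linarith, by linarith⟩

theorem x5_y_mem {b0 y e1 w h : ℝ} (h1 : b0 + w < y) (h2 : y < e1 - w) (hh : 0 < h) :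
    (y : ℂ) ∈ RR b0 e1 w h := by
  refine ⟨?_, 0, ?_, ?_⟩
  · rw [Complex.ofReal_im, abs_zero]
    exact hh
  · rw [Complex.ofReal_re, Int.cast_zero, sub_zero]
    exact h1
  · rw [Complex.ofReal_re, Int.cast_zero, sub_zero]
    exact h2

theorem x5_RR_mono {b0 e1 e0 w h : ℝ} (he : e1 ≤ e0) : RR b0 e1 w h ⊆ RR b0 e0 w h := by
  rintro z ⟨h1, k, h2, h3⟩
  exact ⟨h1, k, h2, by linarith⟩

theorem x5_pd_lin {n : ℕ} (i : Fin n) {F G : (Fin n → ℂ) → ℂ} {U : Set ℂ} (hU : IsOpen U)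
    (hF : DifferentiableOn ℂ F (PU n U)) (hG : DifferentiableOn ℂ G (PU n U)) (c : ℂ) {z : Fin n → ℂ}
    (hz : z ∈ PU n U) : lib_pd i (fun z => c * F z + G z) z = c * lib_pd i F z + lib_pd i G z := by
  have hO := lib_isOpen_PU n hU
  have h1 := (hF z hz).differentiableAt (hO.mem_nhds hz)
  have h2 := (hG z hz).differentiableAt (hO.mem_nhds hz)
  have h3 : DifferentiableAt ℂ (fun z => c * F z + G z) z := (h1.const_mul c).add h2
  rw [lib_pd_eq_fderiv i h1, lib_pd_eq_fderiv i h2, lib_pd_eq_fderiv i h3]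
  have e : fderiv ℂ (fun z => c * F z + G z) z = c • fderiv ℂ F z + fderiv ℂ G z :=
    ((h1.hasFDerivAt.const_mul c).add h2.hasFDerivAt).fderiv
  rw [e]
  simp

theorem x5_pds_lin {n : ℕ} (l : List (Fin n)) {F G : (Fin n → ℂ) → ℂ} {U : Set ℂ} (hU : IsOpen U)
    (hF : DifferentiableOn ℂ F (PU n U)) (hG : DifferentiableOn ℂ G (PU n U)) (c : ℂ) :
    ∀ z ∈ PU n U, lib_pds l (fun z => c * F z + G z) z = c * lib_pds l F z + lib_pds l G z := by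
  induction l with
  | nil => exact fun z _ => rfl
  | cons i l ih =>
    intro z hz
    rw [lib_pds_cons, lib_pds_cons, lib_pds_cons,
      lib_pd_congr (G := fun z => c * lib_pds l F z + lib_pds l G z) i hU ih hz]
    exact x5_pd_lin i hU (lib_pds_hol l hU hF) (lib_pds_hol l hU hG) c hz

theorem x5_c3_eq (y : ℝ) (n : ℕ) (F : (Fin (n + 3) → ℂ) → ℂ) (v : Fin n → ℂ) :
    c3 y n F v = (1 / 2) * lib_pds [Fin.succ 0, Fin.succ (Fin.succ 0), Fin.succ (Fin.succ 0)] F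
      (Fin.cons (y : ℂ) (Fin.cons (y : ℂ) (Fin.cons (y : ℂ) v : Fin (n + 1) → ℂ) : Fin (n + 2) → ℂ)) := by
  unfold c3
  simp only [lib_pds_cons, lib_pds_nil, lib_pd_succ_cons, lib_pd_zero_cons, lib_iter2]

theorem x5_c3_lin {b0 y e1 w h : ℝ} (h1 : b0 + w < y) (h2 : y < e1 - w) (hh : 0 < h) {V : Set ℂ}
    (hO : IsOpen (V ∪ RR b0 e1 w h)) {n : ℕ} {F G : (Fin (n + 3) → ℂ) → ℂ}
    (hF : DifferentiableOn ℂ F (PU (n + 3) (V ∪ RR b0 e1 w h)))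
    (hG : DifferentiableOn ℂ G (PU (n + 3) (V ∪ RR b0 e1 w h))) (c : ℂ) {v : Fin n → ℂ} (hv : v ∈ PU n V) :
    c3 y n (fun x => c * F x + G x) v = c * c3 y n F v + c3 y n G v := by
  have hy : (y : ℂ) ∈ V ∪ RR b0 e1 w h := Or.inr (x5_y_mem h1 h2 hh)
  have hv' : v ∈ PU n (V ∪ RR b0 e1 w h) := fun i => Or.inl (hv i)
  have hz := lib_cons_PU hy (lib_cons_PU hy (lib_cons_PU hy hv'))
  rw [x5_c3_eq, x5_c3_eq, x5_c3_eq, x5_pds_lin _ hO hF hG c _ hz]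
  ring

theorem x5_removeNth {q : ℕ} {W : Set ℂ} {z : Fin (q + 1) → ℂ} (hz : z ∈ PU (q + 1) W) (i : Fin (q + 1)) :
    i.removeNth z ∈ PU q W := fun j => hz (i.succAbove j)

theorem x5_wd_lin (a : ℂ → ℂ) (q : ℕ) {W : Set ℂ} {F A B : (Fin q → ℂ) → ℂ} {c : ℂ}
    (h : ∀ z ∈ PU q W, F z = c * A z + B z) :
    ∀ z ∈ PU (q + 1) W, wd a q F z = c * wd a q A z + wd a q B z := by
  intro z hz
  unfold wd
  rw [Finset.mul_sum, ← Finset.sum_add_distrib]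
  refine Finset.sum_congr rfl fun i _ => ?_
  rw [h _ (x5_removeNth hz i)]
  ring

theorem x5_ext0_lin {b0 e0 w h : ℝ} (hw : 0 ≤ w) {V : Set ℂ} {n : ℕ} {F A B : (Fin n → ℂ) → ℂ} {c : ℂ}
    (H : ∀ z ∈ PU n V, F z = c * A z + B z) :
    ∀ z ∈ PU n (V ∪ RR b0 e0 w h), ext0 b0 e0 F z = c * ext0 b0 e0 A z + ext0 b0 e0 B z := by
  intro z hz
  unfold ext0
  by_cases hc : ∀ j, ¬ InR b0 e0 (z j)
  · rw [if_pos hc, if_pos hc, if_pos hc]
    refine H z fun j => ?_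
    rcases hz j with hj | hj
    · exact hj
    · exact absurd (x5_RR_InR hw hj) (hc j)
  · rw [if_neg hc, if_neg hc, if_neg hc]
    ring

theorem x5_PiE_lin {b0 y e1 e0 w h : ℝ} (h1 : b0 + w < y) (h2 : y < e1 - w) (hw : 0 ≤ w) (hh : 0 < h)
    {V : Set ℂ} (hO : IsOpen (V ∪ RR b0 e1 w h)) {q : ℕ} {F G : (Fin q → ℂ) → ℂ}
    (hF : DifferentiableOn ℂ F (PU q (V ∪ RR b0 e1 w h)))
    (hG : DifferentiableOn ℂ G (PU q (V ∪ RR b0 e1 w h))) (c : ℂ) :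
    ∀ z ∈ PU q (V ∪ RR b0 e0 w h),
      PiE b0 e0 y q (fun x => c * F x + G x) z = c * PiE b0 e0 y q F z + PiE b0 e0 y q G z := by
  intro z hz
  have key : ∀ (n : ℕ) (F G : (Fin n → ℂ) → ℂ), ∀ z ∈ PU n (V ∪ RR b0 e0 w h),
      ext0 b0 e0 (fun x => c * F x + G x) z = c * ext0 b0 e0 F z + ext0 b0 e0 G z :=
    fun n F G => x5_ext0_lin hw (fun _ _ => rfl)
  match q, F, G, hF, hG, z, hz with
  | 0, F, G, _, _, z, hz => exact key 0 F G z hz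
  | 1, F, G, _, _, z, hz => exact key 1 F G z hz
  | 2, F, G, _, _, z, hz => exact key 2 F G z hz
  | n + 3, F, G, hF, hG, z, hz =>
    have k1 : ∀ v ∈ PU n V, c3 y n (fun x => c * F x + G x) v = c * c3 y n F v + c3 y n G v :=
      fun v hv => x5_c3_lin h1 h2 hh hO hF hG c hv
    have k2 := x5_ext0_lin (b0 := b0) (e0 := e0) (h := h) hw k1
    have k3 := x5_wd_lin (sc b0 e0 y 0) (n + 2) (x5_wd_lin (sc b0 e0 y 1) (n + 1)
      (x5_wd_lin (sc b0 e0 y 2) n k2)) z hz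
    have k4 := key (n + 3) F G z hz
    show ext0 b0 e0 (fun x => c * F x + G x) z + uw b0 e0 y n (c3 y n (fun x => c * F x + G x)) z
      = c * (ext0 b0 e0 F z + uw b0 e0 y n (c3 y n F) z) + (ext0 b0 e0 G z + uw b0 e0 y n (c3 y n G) z)
    unfold uw
    rw [k3, k4]
    ring

theorem x5_PiE_zero (b0 e0 y : ℝ) (F : (Fin 0 → ℂ) → ℂ) : PiE b0 e0 y 0 F = F := by
  funext z
  show ext0 b0 e0 F z = F z
  unfold ext0
  exact if_pos fun j => j.elim0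

/-- from affine additivity to the two fields of `Fnl` -/
theorem x5_Fnl {q : ℕ} {U : Set ℂ} {α : ((Fin q → ℂ) → ℂ) → ℂ}
    (lin : ∀ (c : ℂ) F G, BO q U F → BO q U G → α (fun z => c * F z + G z) = c * α F + α G)
    (bdd : ∃ C : ℝ, 0 ≤ C ∧ ∀ F, BO q U F → ∀ M : ℝ, (∀ z ∈ PU q U, ‖F z‖ ≤ M) → 0 ≤ M → ‖α F‖ ≤ C * M) :
    Fnl q U α := by
  have h0 : α (fun _ => 0) = 0 := by
    have := lin 1 (fun _ => 0) (fun _ => 0) (BO.zero q U) (BO.zero q U)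
    have e : (fun z : Fin q → ℂ => (1 : ℂ) * (fun _ : Fin q → ℂ => (0 : ℂ)) z + (fun _ : Fin q → ℂ => (0 : ℂ)) z)
        = fun _ => 0 := by
      funext z
      simp
    rw [e] at this
    linear_combination -this
  refine ⟨fun F G hF hG => ?_, fun c F hF => ?_, bdd⟩
  · have := lin 1 F G hF hG
    have e : (fun z => (1 : ℂ) * F z + G z) = fun z => F z + G z := by
      funext z
      ring
    rw [e] at this
    rw [this]
    ring
  · have := lin c F (fun _ => 0) hF (BO.zero q U)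
    have e : (fun z => c * F z + (fun _ : Fin q → ℂ => (0 : ℂ)) z) = fun z => c * F z := by
      funext z
      simp
    rw [e] at this
    rw [this, h0, add_zero]

theorem x5_isOpen_RR {b0 e0 w h : ℝ} : IsOpen (RR b0 e0 w h) := by
  have e : RR b0 e0 w h = {z : ℂ | |z.im| < h} ∩ ⋃ k : ℤ, {z : ℂ | b0 + w < z.re - k ∧ z.re - k < e0 - w} := by
    ext z
    constructor
    · rintro ⟨h1, k, hk⟩
      exact ⟨h1, Set.mem_iUnion.2 ⟨k, hk⟩⟩
    · rintro ⟨h1, hk⟩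
      obtain ⟨k, hk⟩ := Set.mem_iUnion.1 hk
      exact ⟨h1, k, hk⟩
  rw [e]
  refine (isOpen_lt (continuous_abs.comp Complex.continuous_im) continuous_const).inter
    (isOpen_iUnion fun k => ?_)
  exact (isOpen_lt continuous_const (Complex.continuous_re.sub continuous_const)).inter
    (isOpen_lt (Complex.continuous_re.sub continuous_const) continuous_const)

/-- pull back of functionals along `Π` -/
theorem x5_pull (h2 : ST_X2) {b0 y e1 e0 w h : ℝ} (p1 : b0 + w < y) (p2 : y < e1 - w) (p3 : e1 ≤ e0)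
    (p4 : e0 ≤ b0 + 1) (hw : 0 ≤ w) (hh : 0 < h) {V : Set ℂ} (hV : IsOpen V) (hP : Per V)
    (hR : ∀ z ∈ V, ¬ InR b0 e0 z) {q : ℕ} {φ : ((Fin q → ℂ) → ℂ) → ℂ} (hφ : Fnl q (V ∪ RR b0 e0 w h) φ) :
    Fnl q (V ∪ RR b0 e1 w h) (fun F => φ (PiE b0 e0 y q F)) := by
  obtain ⟨H1, ⟨C, H2⟩, _⟩ := h2 b0 y e1 e0 w h p1 p2 p3 p4 hw hh V hV hP hR
  have hO : IsOpen (V ∪ RR b0 e1 w h) := hV.union x5_isOpen_RR
  refine x5_Fnl (fun c F G hF hG => ?_) ?_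
  · have a := (H1 q F hF).1
    have b := (H1 q G hG).1
    have d := (H1 q _ ((hF.smul c).add hG)).1
    have e := hφ.ext' d ((a.smul c).add b) (x5_PiE_lin p1 p2 hw hh hO hF.hol hG.hol c)
    rw [e, hφ.add _ _ (a.smul c) b, hφ.smul c _ a]
  · obtain ⟨K, hK, HK⟩ := hφ.bdd
    refine ⟨K * |C q|, by positivity, fun F hF M hM hM0 => ?_⟩
    have a := (H1 q F hF).1
    have b := H2 q F hF M hM
    have d := HK _ a (|C q| * M) (fun z hz => (b z hz).trans (mul_le_mul_of_nonneg_right (le_abs_self _) hM0))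
      (by positivity)
    calc ‖φ (PiE b0 e0 y q F)‖ ≤ K * (|C q| * M) := d
      _ = K * |C q| * M := by ring

/-- the statement of `ST_X1` for one homotopy operator -/
def x5_Hop (b0 y e0 : ℝ) (hop : (q : ℕ) → ((Fin q → ℂ) → ℂ) → ((Fin (q + 1) → ℂ) → ℂ)) : Prop :=
  ∀ w h : ℝ, 0 ≤ w → 0 < h → b0 + w < y → y < e0 - w →
  ∀ V : Set ℂ, IsOpen V → Per V → (∀ z ∈ V, ¬ InR b0 e0 z) →
    (∀ q F, BO q (V ∪ RR b0 e0 w h) F → BO (q + 1) (V ∪ RR b0 e0 w h) (hop q F)) ∧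
    (∃ C : ℕ → ℝ, ∀ q F, BO q (V ∪ RR b0 e0 w h) F → ∀ B : ℝ, (∀ z ∈ PU q (V ∪ RR b0 e0 w h), ‖F z‖ ≤ B) →
      ∀ z ∈ PU (q + 1) (V ∪ RR b0 e0 w h), ‖hop q F z‖ ≤ C q * B) ∧
    (∀ q F G (c : ℂ), BO q (V ∪ RR b0 e0 w h) F → BO q (V ∪ RR b0 e0 w h) G →
      ∀ z ∈ PU (q + 1) (V ∪ RR b0 e0 w h), hop q (fun x => c * F x + G x) z = c * hop q F z + hop q G z) ∧
    (∀ q F, BO (q + 1) (V ∪ RR b0 e0 w h) F → ∀ z ∈ PU (q + 1) (V ∪ RR b0 e0 w h),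
      dd (q + 1) (hop (q + 1) F) z + hop q (dd q F) z = F z - PiE b0 e0 y (q + 1) F z)

theorem x5_hopF {b0 y e0 : ℝ} {hop : (q : ℕ) → ((Fin q → ℂ) → ℂ) → ((Fin (q + 1) → ℂ) → ℂ)}
    (h1 : x5_Hop b0 y e0 hop) {w h : ℝ} (p1 : b0 + w < y) (p2 : y < e0 - w) (hw : 0 ≤ w) (hh : 0 < h)
    {V : Set ℂ} (hV : IsOpen V) (hP : Per V)
    (hR : ∀ z ∈ V, ¬ InR b0 e0 z) {q : ℕ} {φ : ((Fin (q + 1) → ℂ) → ℂ) → ℂ}
    (hφ : Fnl (q + 1) (V ∪ RR b0 e0 w h) φ) :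
    Fnl q (V ∪ RR b0 e0 w h) (fun F => φ (hop q F)) := by
  obtain ⟨H1, ⟨C, H2⟩, H3, _⟩ := h1 w h hw hh p1 p2 V hV hP hR
  refine x5_Fnl (fun c F G hF hG => ?_) ?_
  · have a := (H1 q F hF)
    have b := (H1 q G hG)
    have d := (H1 q _ ((hF.smul c).add hG))
    have e := hφ.ext' d ((a.smul c).add b) (H3 q F G c hF hG)
    rw [e, hφ.add _ _ (a.smul c) b, hφ.smul c _ a]
  · obtain ⟨K, hK, HK⟩ := hφ.bdd
    refine ⟨K * |C q|, by positivity, fun F hF M hM hM0 => ?_⟩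
    have a := (H1 q F hF)
    have b := H2 q F hF M hM
    have d := HK _ a (|C q| * M) (fun z hz => (b z hz).trans (mul_le_mul_of_nonneg_right (le_abs_self _) hM0))
      (by positivity)
    calc ‖φ (hop q F)‖ ≤ K * (|C q| * M) := d
      _ = K * |C q| * M := by ring

end

end Pool.Agent.Helper67.DO
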